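import Mathlib

set_option autoImplicit false

namespace Pool.Agent.H331Z.Trace

/-- The defining relations `a b = b a` for `(a, b)` in the independence relation `I` on the
alphabet `Fin k`. -/
def commRel {k : ℕ} (I : Fin k → Fin k → Prop) (u v : FreeMonoid (Fin k)) : Prop :=
  ∃ a b : Fin k, I a b ∧ u = FreeMonoid.of a * FreeMonoid.of b ∧
    v = FreeMonoid.of b * FreeMonoid.of a

/-- The trace monoid `M(A, I)` on the alphabet `A = Fin k`: the monoid presented by the
generators `A` and the relations `a b = b a` for `(a, b) ∈ I`. -/
abbrev TraceMonoid {k : ℕ} (I : Fin k → Fin k → Prop) : Type := PresentedMonoid (commRel I)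

/-- The abelianisation map `π : M(A, I) → ℕ^A` as a monoid homomorphism: a letter `a` goes to
the unit vector of `a`. -/
def abHom {k : ℕ} (I : Fin k → Fin k → Prop) :
    TraceMonoid I →* Multiplicative (Fin k → ℕ) :=
  PresentedMonoid.lift (fun a => Multiplicative.ofAdd (Pi.single a 1)) (by
    rintro u v ⟨a, b, -, rfl, rfl⟩
    simp only [map_mul, FreeMonoid.lift_eval_of]
    exact mul_comm _ _)

/-- The vector of letter counts `π(m) ∈ ℕ^A` of an element `m` of the trace monoid. -/
def parikh {k : ℕ} (I : Fin k → Fin k → Prop) (m : TraceMonoid I) : Fin k → ℕ :=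
  Multiplicative.toAdd (abHom I m)

/-- A word over the letters (left summand) and the variables `x₀, x₁, …` (right summand). -/
abbrev Word (k : ℕ) : Type := List (Fin k ⊕ ℕ)

/-- A formal sum of constants from `ℕ^A` (left summand) and variables (right summand). -/
abbrev AbSum (k : ℕ) : Type := List ((Fin k → ℕ) ⊕ ℕ)

/-- An input `(S, S')`: a finite system of equations over the monoid and a finite system of
equations over `ℕ^A`, each equation being the pair of its two sides. -/
abbrev Input (k : ℕ) : Type := List (Word k × Word k) × List (AbSum k × AbSum k)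

/-- The value of a word in the trace monoid when the variable `xᵢ` is given the value `m i`. -/
def evalWord {k : ℕ} (I : Fin k → Fin k → Prop) (m : ℕ → TraceMonoid I) (u : Word k) :
    TraceMonoid I :=
  (u.map (Sum.elim (PresentedMonoid.of (commRel I)) m)).prod

/-- The value of a formal sum in `ℕ^A` when the variable `xᵢ` is given the value `z i`. -/
def evalSum {k : ℕ} (z : ℕ → Fin k → ℕ) (t : AbSum k) : Fin k → ℕ :=
  (t.map (Sum.elim id z)).sum

/-- The input `(S, S')` is a yes-instance of `(DP, ab)`: some elements `m i` of the trace monoid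
solve `S`, and their letter-count vectors solve `S'`. -/
def Solvable {k : ℕ} (I : Fin k → Fin k → Prop) (x : Input k) : Prop :=
  ∃ m : ℕ → TraceMonoid I,
    (∀ e ∈ x.1, evalWord I m e.1 = evalWord I m e.2) ∧
    (∀ e ∈ x.2, evalSum (fun i => parikh I (m i)) e.1 = evalSum (fun i => parikh I (m i)) e.2)

end Pool.Agent.H331Z.Trace
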