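import Mathlib
import Pool.Agent.Helper437.Dio.DPRM

set_option autoImplicit false

namespace Pool.Agent.H331Z.Trace

/-- systems over the free monoid on two letters, abelian constraints without constants -/
structure FSys (V : Type) where
  w : List (List (Bool ⊕ V) × List (Bool ⊕ V))
  a : List (List V × List V)

def fev {V : Type} (m : V → List Bool) (u : List (Bool ⊕ V)) : List Bool :=
  u.flatMap (Sum.elim (fun c => [c]) m)

def FSys.Holds {V : Type} (s : FSys V) (m : V → List Bool) : Prop :=
  (∀ e ∈ s.w, fev m e.1 = fev m e.2) ∧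
  (∀ e ∈ s.a, ∀ c : Bool, (e.1.map (fun i => (m i).count c)).sum =
    (e.2.map (fun i => (m i).count c)).sum)

def FSys.map {V W : Type} (f : V → W) (s : FSys V) : FSys W :=
  ⟨s.w.map (fun e => (e.1.map (Sum.map id f), e.2.map (Sum.map id f))),
   s.a.map (fun e => (e.1.map f, e.2.map f))⟩

def FSys.app {V : Type} (s t : FSys V) : FSys V := ⟨s.w ++ t.w, s.a ++ t.a⟩

theorem fev_map {V W : Type} (f : V → W) (m : W → List Bool) (u : List (Bool ⊕ V)) :
    fev m (u.map (Sum.map id f)) = fev (m ∘ f) u := by
  unfold fev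
  rw [List.flatMap_map]
  congr 1
  funext x
  rcases x with x | x <;> rfl

theorem FSys.holds_map {V W : Type} (f : V → W) (s : FSys V) (m : W → List Bool) :
    (s.map f).Holds m ↔ s.Holds (m ∘ f) := by
  unfold FSys.Holds FSys.map
  simp only [List.mem_map, forall_exists_index, and_imp, forall_apply_eq_imp_iff₂, fev_map,
    List.map_map]
  rfl

theorem FSys.holds_app {V : Type} (s t : FSys V) (m : V → List Bool) :
    (s.app t).Holds m ↔ s.Holds m ∧ t.Holds m := by
  unfold FSys.Holds FSys.app
  simp only [List.mem_append]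
  constructor
  · rintro ⟨h1, h2⟩
    exact ⟨⟨fun e he => h1 e (Or.inl he), fun e he => h2 e (Or.inl he)⟩,
      ⟨fun e he => h1 e (Or.inr he), fun e he => h2 e (Or.inr he)⟩⟩
  · rintro ⟨⟨h1, h2⟩, ⟨h3, h4⟩⟩
    exact ⟨fun e he => he.elim (h1 e) (h3 e), fun e he => he.elim (h2 e) (h4 e)⟩

/-- the word `a^n` -/
def A (n : ℕ) : List Bool := List.replicate n false

theorem comm_count (c d : Bool) (hcd : c ≠ d) (m : ℕ) : ∀ (n : ℕ) (w : List Bool), w.length = n →
    w ++ (List.replicate m c ++ [d]) = (List.replicate m c ++ [d]) ++ w →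
    w.count c = m * w.count d := by
  intro n
  induction n using Nat.strong_induction_on with
  | _ n ih =>
    intro w hw h
    rcases Nat.lt_or_ge w.length (m + 1) with hl | hl
    · rcases List.eq_nil_or_concat w with rfl | ⟨w', e, rfl⟩
      · simp
      · exfalso
        have h1 : e = d := by
          have := congrArg List.getLast? h
          simp only [List.concat_eq_append, ← List.append_assoc, List.getLast?_append,
            List.getLast?_singleton, Option.some_or] at this
          exact (Option.some.inj this).symm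
        have h2 : (w'.concat e) <+: List.replicate m c := by
          have h3 : (w'.concat e) <+: (List.replicate m c ++ ([d] ++ w'.concat e)) := by
            rw [← List.append_assoc, ← h]; exact List.prefix_append _ _
          refine List.prefix_of_prefix_length_le h3 (List.prefix_append _ _) ?_
          simp at hl ⊢; omega
        have h4 : e ∈ List.replicate m c := h2.subset (by simp)
        rw [List.mem_replicate] at h4
        exact hcd (h4.2.symm.trans h1)
    · have h3 : (List.replicate m c ++ [d]) <+: w := by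
        have h4 : (List.replicate m c ++ [d]) <+: w ++ (List.replicate m c ++ [d]) := by
          rw [h]; exact List.prefix_append _ _
        refine List.prefix_of_prefix_length_le h4 (List.prefix_append _ _) ?_
        simpa using hl
      obtain ⟨w', rfl⟩ := h3
      have h5 : w' ++ (List.replicate m c ++ [d]) = (List.replicate m c ++ [d]) ++ w' := by
        rw [List.append_assoc] at h
        exact List.append_cancel_left h
      have h6 := ih w'.length (by rw [← hw]; simp; omega) w' rfl h5
      simp only [List.count_append, h6, List.count_replicate, beq_self_eq_true, if_true,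
        List.count_singleton]
      have e1 : (d == c) = false := by simpa using hcd.symm
      have e2 : (c == d) = false := by simpa using hcd
      simp [e1, e2]
      ring

theorem eq_A_of_count (w : List Bool) (h : w.count true = 0) : w = A (w.count false) := by
  induction w with
  | nil => rfl
  | cons x w ih =>
    cases x
    · simp only [List.count_cons_self, A, List.replicate_succ]
      congr 1
      apply ih
      simpa using h
    · simp at h

theorem count_A_false (n : ℕ) : (A n).count false = n := by simp [A]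
theorem count_A_true (n : ℕ) : (A n).count true = 0 := by simp [A, List.count_replicate]
theorem A_inj {m n : ℕ} (h : A m = A n) : m = n := by
  have := congrArg List.length h
  simpa [A] using this

theorem eq_A_of_comm (w : List Bool) (h : w ++ [false] = false :: w) : ∃ n, w = A n := by
  have := comm_count true false (by decide) 0 _ w rfl (by simpa using h)
  exact ⟨_, eq_A_of_count w (by simpa using this)⟩

/-- relations on natural numbers defined by systems, numbers being coded as powers of `a` -/
def NDef {α : Type} (R : (α → ℕ) → Prop) : Prop :=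
  ∃ (β : Type) (_ : Finite β) (s : FSys (α ⊕ β)),
    ∀ v : α → ℕ, R v ↔ ∃ m : β → List Bool, s.Holds (Sum.elim (fun i => A (v i)) m)

theorem NDef.congr {α : Type} {R R' : (α → ℕ) → Prop} (h : NDef R) (e : ∀ v, R v ↔ R' v) :
    NDef R' := by
  obtain ⟨β, hβ, s, hs⟩ := h
  exact ⟨β, hβ, s, fun v => (e v).symm.trans (hs v)⟩

theorem NDef.and {α : Type} {R R' : (α → ℕ) → Prop} (h : NDef R) (h' : NDef R') :
    NDef (fun v => R v ∧ R' v) := by
  obtain ⟨β, hβ, s, hs⟩ := h
  obtain ⟨β', hβ', s', hs'⟩ := h'
  refine ⟨β ⊕ β', inferInstance,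
    (s.map (Sum.map id Sum.inl)).app (s'.map (Sum.map id Sum.inr)), fun v => ?_⟩
  simp only [FSys.holds_app, FSys.holds_map, hs, hs']
  constructor
  · rintro ⟨⟨m, hm⟩, ⟨m', hm'⟩⟩
    refine ⟨Sum.elim m m', ?_, ?_⟩
    · convert hm using 1
      funext x; rcases x with x | x <;> rfl
    · convert hm' using 1
      funext x; rcases x with x | x <;> rfl
  · rintro ⟨m, hm, hm'⟩
    refine ⟨⟨m ∘ Sum.inl, ?_⟩, ⟨m ∘ Sum.inr, ?_⟩⟩
    · convert hm using 1
      funext x; rcases x with x | x <;> rfl
    · convert hm' using 1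
      funext x; rcases x with x | x <;> rfl

theorem NDef.comap {α α' : Type} {R : (α → ℕ) → Prop} (h : NDef R) (f : α → α') :
    NDef (fun v : α' → ℕ => R (v ∘ f)) := by
  obtain ⟨β, hβ, s, hs⟩ := h
  refine ⟨β, hβ, s.map (Sum.map f id), fun v => ?_⟩
  simp only [FSys.holds_map, hs]
  refine exists_congr fun m => ?_
  have : (Sum.elim (fun i => A (v i)) m ∘ Sum.map f id) =
      Sum.elim (fun i => A ((v ∘ f) i)) m := by
    funext x; rcases x with x | x <;> rfl
  rw [this]

theorem NDef.ex {α δ : Type} [Finite δ] {R : (α ⊕ δ → ℕ) → Prop} (h : NDef R) :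
    NDef (fun v : α → ℕ => ∃ t : δ → ℕ, R (Sum.elim v t)) := by
  classical
  obtain ⟨β, hβ, s, hs⟩ := h
  have : Fintype δ := Fintype.ofFinite δ
  let f : (α ⊕ δ) ⊕ β → α ⊕ (δ ⊕ β) := Equiv.sumAssoc α δ β
  let t : FSys (α ⊕ (δ ⊕ β)) := ⟨(Finset.univ : Finset δ).toList.map (fun d =>
    ([Sum.inr (Sum.inr (Sum.inl d)), Sum.inl false],
     [Sum.inl false, Sum.inr (Sum.inr (Sum.inl d))])), []⟩
  have ht : ∀ (v : α → List Bool) (m : δ ⊕ β → List Bool), t.Holds (Sum.elim v m) ↔
      ∀ d, m (Sum.inl d) ++ [false] = false :: m (Sum.inl d) := by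
    intro v m
    simp [FSys.Holds, t, fev]
  refine ⟨δ ⊕ β, inferInstance, (s.map f).app t, fun v => ?_⟩
  simp only [FSys.holds_app, FSys.holds_map, hs, ht]
  constructor
  · rintro ⟨t, m, hm⟩
    refine ⟨Sum.elim (fun d => A (t d)) m, ?_, ?_⟩
    · convert hm using 1
      funext x; rcases x with (x | x) | x <;> rfl
    · intro d
      simp only [Sum.elim_inl, A]
      rw [← List.replicate_succ, List.replicate_succ']
  · rintro ⟨m, hm, hd⟩
    choose t ht using fun d => eq_A_of_comm _ (hd d)
    refine ⟨t, m ∘ Sum.inr, ?_⟩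
    convert hm using 1
    funext x; rcases x with (x | x) | x
    · rfl
    · exact (ht x).symm
    · rfl

theorem NDef.eq {α : Type} (i j : α) : NDef (fun v : α → ℕ => v i = v j) := by
  refine ⟨Empty, inferInstance, ⟨[([Sum.inr (Sum.inl i)], [Sum.inr (Sum.inl j)])], []⟩,
    fun v => ?_⟩
  simp only [FSys.Holds, fev, List.mem_singleton, forall_eq, List.flatMap_cons, List.flatMap_nil,
    Sum.elim_inr, Sum.elim_inl, List.append_nil, List.not_mem_nil, IsEmpty.forall_iff,
    implies_true, and_true]
  constructor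
  · intro h; exact ⟨Empty.elim, by rw [h]⟩
  · rintro ⟨_, h⟩; exact A_inj h

theorem NDef.const {α : Type} (i : α) (n : ℕ) : NDef (fun v : α → ℕ => v i = n) := by
  refine ⟨Empty, inferInstance, ⟨[([Sum.inr (Sum.inl i)], List.replicate n (Sum.inl false))], []⟩,
    fun v => ?_⟩
  have : ∀ m : α ⊕ Empty → List Bool, fev m (List.replicate n (Sum.inl false)) = A n := by
    intro m
    simp [fev, A, List.flatMap_replicate]
  simp only [FSys.Holds, this, List.mem_singleton, forall_eq, List.not_mem_nil,
    IsEmpty.forall_iff, implies_true, and_true]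
  simp only [fev, List.flatMap_cons, List.flatMap_nil,
    Sum.elim_inr, Sum.elim_inl, List.append_nil]
  constructor
  · intro h; exact ⟨Empty.elim, by rw [h]⟩
  · rintro ⟨_, h⟩; exact A_inj h

theorem NDef.add {α : Type} (i j l : α) : NDef (fun v : α → ℕ => v l = v i + v j) := by
  refine ⟨Empty, inferInstance, ⟨[([Sum.inr (Sum.inl l)],
    [Sum.inr (Sum.inl i), Sum.inr (Sum.inl j)])], []⟩, fun v => ?_⟩
  simp only [FSys.Holds, fev, List.mem_singleton, forall_eq, List.flatMap_cons, List.flatMap_nil,
    Sum.elim_inr, Sum.elim_inl, List.append_nil, List.not_mem_nil, IsEmpty.forall_iff,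
    implies_true, and_true]
  have : A (v i) ++ A (v j) = A (v i + v j) := by simp [A]
  rw [this]
  constructor
  · intro h; exact ⟨Empty.elim, by rw [h]⟩
  · rintro ⟨_, h⟩; exact A_inj h

theorem pow_comm_list (u : List Bool) (n : ℕ) :
    (List.replicate n u).flatten ++ u = u ++ (List.replicate n u).flatten := by
  induction n with
  | zero => simp
  | succ n ih => simp only [List.replicate_succ, List.flatten_cons, List.append_assoc, ih]

theorem count_pow_list (u : List Bool) (n : ℕ) (c : Bool) :
    (List.replicate n u).flatten.count c = n * u.count c := by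
  induction n with
  | zero => simp
  | succ n ih => simp only [List.replicate_succ, List.flatten_cons, List.count_append, ih]; ring

theorem NDef.mul {α : Type} (i j l : α) : NDef (fun v : α → ℕ => v l = v i * v j) := by
  let y : Bool ⊕ (α ⊕ Fin 3) := Sum.inr (Sum.inr 0)
  let z : Bool ⊕ (α ⊕ Fin 3) := Sum.inr (Sum.inr 1)
  let w : Bool ⊕ (α ⊕ Fin 3) := Sum.inr (Sum.inr 2)
  let x : Bool ⊕ (α ⊕ Fin 3) := Sum.inr (Sum.inl i)
  let a : Bool ⊕ (α ⊕ Fin 3) := Sum.inl false
  let b : Bool ⊕ (α ⊕ Fin 3) := Sum.inl true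
  refine ⟨Fin 3, inferInstance, ⟨[([y, b], [b, y]), ([z, a, b], [a, b, z]),
    ([w, x, b], [x, b, w])],
    [([Sum.inr 1], [Sum.inl j, Sum.inr 0]), ([Sum.inr 2], [Sum.inl l, Sum.inr 0])]⟩, fun v => ?_⟩
  simp only [FSys.Holds, fev, List.mem_cons, List.not_mem_nil, or_false, forall_eq_or_imp,
    forall_eq, List.flatMap_cons, List.flatMap_nil, Sum.elim_inr, Sum.elim_inl, List.append_nil,
    x, y, z, w, a, b, List.map_cons, List.map_nil, List.sum_cons, List.sum_nil, add_zero,
    Bool.forall_bool, count_A_false, count_A_true, zero_add]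
  constructor
  · intro h
    refine ⟨![(List.replicate (v j) [true]).flatten, (List.replicate (v j) [false, true]).flatten,
      (List.replicate (v j) (A (v i) ++ [true])).flatten], ⟨?_, ?_, ?_⟩, ?_⟩
    · exact pow_comm_list [true] _
    · exact pow_comm_list [false, true] _
    · have := pow_comm_list (A (v i) ++ [true]) (v j)
      simpa using this
    · simp only [Matrix.cons_val_zero, Matrix.cons_val_one, Matrix.cons_val, count_pow_list,
        List.count_append, count_A_false, count_A_true, h]
      simp [mul_comm]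
  · rintro ⟨m, ⟨h1, h2, h3⟩, ⟨h4, h5⟩, h6, h7⟩
    have c1 := comm_count false true (by decide) 0 _ (m 0) rfl (by simpa using h1)
    have c2 := comm_count false true (by decide) 1 _ (m 1) rfl (by simpa using h2)
    have c3 := comm_count false true (by decide) (v i) _ (m 2) rfl (by simpa [A] using h3)
    rw [h4, h5] at c2
    rw [h6, h7] at c3
    simp only [zero_mul] at c1
    rw [c1] at c2 c3
    simp only [add_zero, one_mul] at c2 c3
    rw [c3, c2]

/-- polynomials with natural coefficients -/
inductive IsNP {α : Type} : ((α → ℕ) → ℕ) → Prop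
  | proj : ∀ i, IsNP fun x : α → ℕ => x i
  | const : ∀ n : ℕ, IsNP fun _ : α → ℕ => n
  | add : ∀ {f g : (α → ℕ) → ℕ}, IsNP f → IsNP g → IsNP fun x => f x + g x
  | mul : ∀ {f g : (α → ℕ) → ℕ}, IsNP f → IsNP g → IsNP fun x => f x * g x

theorem isPoly_split {α : Type} {f : (α → ℕ) → ℤ} (hf : IsPoly f) :
    ∃ p q : (α → ℕ) → ℕ, IsNP p ∧ IsNP q ∧ ∀ v, f v = (p v : ℤ) - q v := by
  induction hf with
  | proj i => exact ⟨_, _, IsNP.proj i, IsNP.const 0, fun v => by simp⟩
  | const n => exact ⟨_, _, IsNP.const n.toNat, IsNP.const (-n).toNat, fun v => by simp⟩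
  | sub _ _ ih1 ih2 =>
    obtain ⟨p1, q1, hp1, hq1, e1⟩ := ih1
    obtain ⟨p2, q2, hp2, hq2, e2⟩ := ih2
    refine ⟨_, _, hp1.add hq2, hq1.add hp2, fun v => ?_⟩
    beta_reduce
    rw [e1, e2]; push_cast; ring
  | mul _ _ ih1 ih2 =>
    obtain ⟨p1, q1, hp1, hq1, e1⟩ := ih1
    obtain ⟨p2, q2, hp2, hq2, e2⟩ := ih2
    refine ⟨_, _, (hp1.mul hp2).add (hq1.mul hq2), (hp1.mul hq2).add (hq1.mul hp2), fun v => ?_⟩
    beta_reduce
    rw [e1, e2]; push_cast; ring

theorem graph_bin {α : Type} {f g : (α → ℕ) → ℕ} (op : ℕ → ℕ → ℕ)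
    (hop : ∀ {γ : Type} (i j l : γ), NDef (fun v : γ → ℕ => v l = op (v i) (v j)))
    (hf : NDef (fun w : Option α → ℕ => w none = f (w ∘ some)))
    (hg : NDef (fun w : Option α → ℕ => w none = g (w ∘ some))) :
    NDef (fun w : Option α → ℕ => w none = op (f (w ∘ some)) (g (w ∘ some))) := by
  let e : Bool → Option α → Option α ⊕ Bool := fun c o =>
    Option.elim o (Sum.inr c) (fun i => Sum.inl (some i))
  have h := (((hf.comap (e false)).and (hg.comap (e true))).and
    (hop (γ := Option α ⊕ Bool) (Sum.inr false) (Sum.inr true) (Sum.inl none))).ex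
  refine h.congr fun w => ?_
  have e1 : ∀ (c : Bool) (t : Bool → ℕ), (Sum.elim w t ∘ e c) ∘ some = w ∘ some := by
    intro c t; funext i; rfl
  have e2 : ∀ (c : Bool) (t : Bool → ℕ), (Sum.elim w t ∘ e c) none = t c := by
    intro c t; rfl
  simp only [e1, e2, Sum.elim_inl, Sum.elim_inr]
  constructor
  · rintro ⟨t, ⟨h1, h2⟩, h3⟩
    rw [h3, h1, h2]
  · intro h3
    exact ⟨fun c => cond c (g (w ∘ some)) (f (w ∘ some)), ⟨rfl, rfl⟩, h3⟩

theorem IsNP.graph {α : Type} {f : (α → ℕ) → ℕ} (hf : IsNP f) :
    NDef (fun w : Option α → ℕ => w none = f (w ∘ some)) := by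
  induction hf with
  | proj i => exact NDef.eq none (some i)
  | const n => exact NDef.const none n
  | add _ _ ih1 ih2 => exact graph_bin (· + ·) NDef.add ih1 ih2
  | mul _ _ ih1 ih2 => exact graph_bin (· * ·) NDef.mul ih1 ih2

theorem ndef_poly {α : Type} (p : Poly α) : NDef (fun v : α → ℕ => p v = 0) := by
  obtain ⟨f, g, hf, hg, e⟩ := isPoly_split p.isPoly
  let e' : Option α → α ⊕ Unit := fun o => Option.elim o (Sum.inr ()) Sum.inl
  have h := ((hf.graph.comap e').and (hg.graph.comap e')).ex
  refine h.congr fun w => ?_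
  have e1 : ∀ (t : Unit → ℕ), (Sum.elim w t ∘ e') ∘ some = w := by
    intro t; funext i; rfl
  have e2 : ∀ (t : Unit → ℕ), (Sum.elim w t ∘ e') none = t () := by
    intro t; rfl
  simp only [e1, e2, e w]
  constructor
  · rintro ⟨t, h1, h2⟩
    rw [← h1, ← h2]; simp
  · intro h3
    refine ⟨fun _ => f w, rfl, ?_⟩
    have : (f w : ℤ) = g w := by linarith
    exact_mod_cast this

theorem exists_fsys (S : ℕ → Prop) (hS : REPred S) :
    ∃ (s : FSys ℕ) (i0 : ℕ), ∀ n, S n ↔ ∃ m : ℕ → List Bool, m i0 = A n ∧ s.Holds m := by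
  classical
  obtain ⟨δ, _, p, hp⟩ := Pool.Agent.Helper437.Dio.finite_dummies
    (Pool.Agent.Helper437.Dio.dprm hS)
  obtain ⟨β, _, s, hs⟩ := (ndef_poly p).ex
  obtain ⟨F, hF⟩ : ∃ F : Unit ⊕ β → ℕ, Function.Injective F := Countable.exists_injective_nat _
  refine ⟨s.map F, F (Sum.inl ()), fun n => ?_⟩
  have h1 := hp (fun _ => n)
  simp only [Set.mem_setOf_eq] at h1
  refine h1.trans ((hs (fun _ => n)).trans ?_)
  simp only [FSys.holds_map]
  constructor
  · rintro ⟨m, hm⟩
    refine ⟨Function.extend F (Sum.elim (fun _ => A n) m) (fun _ => []), ?_, ?_⟩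
    · rw [hF.extend_apply]; rfl
    · rw [Function.extend_comp hF]; exact hm
  · rintro ⟨m, h0, hm⟩
    refine ⟨m ∘ F ∘ Sum.inr, ?_⟩
    convert hm using 1
    funext x; rcases x with x | x
    · exact h0.symm
    · rfl

end Pool.Agent.H331Z.Trace
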