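import Mathlib

set_option autoImplicit false

namespace Pool.Agent.H331Z.Trace

/-- ordering of a zero-sum family with bounded partial sums -/
theorem exists_order {α : Type} (c : α → ℤ) (M : ℕ) : ∀ (n : ℕ) (s : Multiset α) (σ : ℤ),
    s.card = n → (∀ a ∈ s, |c a| ≤ M) → |σ| ≤ M → σ + (s.map c).sum = 0 →
    ∃ l : List α, (l : Multiset α) = s ∧ ∀ j, |σ + ((l.take j).map c).sum| ≤ M := by
  intro n
  induction n with
  | zero =>
    intro s σ hs _ hσ _
    rw [Multiset.card_eq_zero] at hs
    subst hs
    exact ⟨[], rfl, fun j => by simpa using hσ⟩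
  | succ n ih =>
    intro s σ hs hc hσ h0
    have hne : s ≠ 0 := by rintro rfl; simp at hs
    have key : ∃ a ∈ s, |σ + c a| ≤ M := by
      rcases le_or_gt σ 0 with h | h
      · by_contra hcon
        push Not at hcon
        have h1 : ∀ a ∈ s, c a < 0 := by
          intro a ha
          have h2 := hcon a ha
          have h3 := hc a ha
          rw [abs_le] at h3 hσ
          rw [lt_abs] at h2
          omega
        have h2 : (s.map c).sum < (s.map (fun _ => (0 : ℤ))).sum :=
          Multiset.sum_lt_sum_of_nonempty hne h1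
        simp at h2
        omega
      · by_contra hcon
        push Not at hcon
        have h1 : ∀ a ∈ s, 0 < c a := by
          intro a ha
          have h2 := hcon a ha
          have h3 := hc a ha
          rw [abs_le] at h3 hσ
          rw [lt_abs] at h2
          omega
        have h2 : (s.map (fun _ => (0 : ℤ))).sum < (s.map c).sum :=
          Multiset.sum_lt_sum_of_nonempty hne h1
        simp at h2
        omega
    obtain ⟨a, ha, hσa⟩ := key
    obtain ⟨t, rfl⟩ := Multiset.exists_cons_of_mem ha
    obtain ⟨l, hl, hj⟩ := ih t (σ + c a) (by simpa using hs)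
      (fun b hb => hc b (Multiset.mem_cons_of_mem hb)) hσa (by
        rw [Multiset.map_cons, Multiset.sum_cons] at h0; linarith)
    refine ⟨a :: l, by rw [← hl]; rfl, fun j => ?_⟩
    rcases j with _ | j
    · simpa using hσ
    · have := hj j
      rw [List.take_succ_cons, List.map_cons, List.sum_cons, ← add_assoc]
      exact this

theorem small_zero_sum {α : Type} (c : α → ℤ) (M : ℕ) (s : Multiset α) (hs : s ≠ 0)
    (hc : ∀ a ∈ s, |c a| ≤ M) (h0 : (s.map c).sum = 0) :
    ∃ t u : Multiset α, s = t + u ∧ t ≠ 0 ∧ (t.map c).sum = 0 ∧ t.card ≤ 2 * M + 1 := by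
  by_cases hcard : s.card ≤ 2 * M + 1
  · exact ⟨s, 0, by simp, hs, h0, hcard⟩
  obtain ⟨l, hl, hj⟩ := exists_order c M _ s 0 rfl hc (by simp) (by simpa using h0)
  have hlen : 2 * M + 1 < l.length := by
    rw [← hl, Multiset.coe_card] at hcard; omega
  have hmaps : Set.MapsTo (fun j => ((l.take j).map c).sum) (Finset.range (2 * M + 2) : Set ℕ)
      (Finset.Icc (-(M : ℤ)) M : Set ℤ) := by
    intro j _
    have := hj j
    rw [zero_add, abs_le] at this
    simpa using this
  obtain ⟨i, hi, j, hj', hne, heq⟩ := Finset.exists_ne_map_eq_of_card_lt_of_maps_to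
    (by simp; omega) hmaps
  simp only [Finset.mem_range] at hi hj'
  wlog hij : i < j generalizing i j
  · exact this j i hne.symm heq.symm hj' hi (by omega)
  have e1 : l.take j = l.take i ++ (l.take j).drop i := by
    conv_lhs => rw [← List.take_append_drop i (l.take j)]
    rw [List.take_take, min_eq_left hij.le]
  refine ⟨((l.take j).drop i : List α), (l.take i ++ l.drop j : List α), ?_, ?_, ?_, ?_⟩
  · rw [← hl]
    conv_lhs => rw [← List.take_append_drop j l, e1]
    simp only [← Multiset.coe_add]
    abel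
  · intro h
    have := congrArg Multiset.card h
    simp at this
    omega
  · have := heq
    rw [e1, List.map_append, List.sum_append] at this
    rw [Multiset.map_coe, Multiset.sum_coe]
    linarith
  · simp
    omega

def bnd (K : ℕ) : ℕ → ℕ
  | 0 => 1
  | j + 1 => (2 * (K * bnd K j) + 1) * bnd K j

theorem decomp {V : Type} (K : ℕ) : ∀ (cs : List (V → ℤ)), (∀ c ∈ cs, ∀ v, |c v| ≤ K) →
    ∀ z : Multiset V, (∀ c ∈ cs, (z.map c).sum = 0) →
    ∃ H : Multiset (Multiset V), H.sum = z ∧
      ∀ h ∈ H, h.card ≤ bnd K cs.length ∧ ∀ c ∈ cs, (h.map c).sum = 0 := by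
  intro cs
  induction cs with
  | nil =>
    intro _ z _
    refine ⟨z.map (fun v => {v}), by simp, ?_⟩
    intro h hh
    rw [Multiset.mem_map] at hh
    obtain ⟨v, -, rfl⟩ := hh
    simp [bnd]
  | cons c cs ih =>
    intro hK z hz
    obtain ⟨H, hH, hh⟩ := ih (fun d hd => hK d (List.mem_cons_of_mem _ hd)) z
      (fun d hd => hz d (List.mem_cons_of_mem _ hd))
    have hsum : ∀ (d : V → ℤ) (T : Multiset (Multiset V)),
        (T.sum.map d).sum = (T.map (fun h => (h.map d).sum)).sum := by
      intro d T
      induction T using Multiset.induction_on with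
      | empty => simp
      | cons a T ih => simp [ih]
    have main : ∀ (n : ℕ) (H : Multiset (Multiset V)), H.card = n →
        (∀ h ∈ H, h.card ≤ bnd K cs.length ∧ ∀ c ∈ cs, (h.map c).sum = 0) →
        (H.sum.map c).sum = 0 → ∃ H' : Multiset (Multiset V), H'.sum = H.sum ∧
          ∀ h ∈ H', h.card ≤ bnd K (c :: cs).length ∧ ∀ d ∈ c :: cs, (h.map d).sum = 0 := by
      intro n
      induction n using Nat.strong_induction_on with
      | _ n ihn =>
        intro H hn hh h0
        by_cases hH0 : H = 0
        · exact ⟨0, by rw [hH0], by simp⟩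
        rw [hsum] at h0
        obtain ⟨t, u, rfl, ht, ht0, htc⟩ := small_zero_sum (fun h => (h.map c).sum)
          (K * bnd K cs.length) H hH0 (by
            intro h hhH
            have h1 := (hh h hhH).1
            have h2 : |(h.map c).sum| ≤ (h.card : ℤ) * K := by
              clear h1 hhH
              induction h using Multiset.induction_on with
              | empty => simp
              | cons a h ih =>
                rw [Multiset.map_cons, Multiset.sum_cons, Multiset.card_cons]
                have := hK c List.mem_cons_self a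
                have := abs_add_le (c a) (h.map c).sum
                push_cast
                linarith
            have h3 : (h.card : ℤ) ≤ bnd K cs.length := by exact_mod_cast h1
            push_cast
            nlinarith [Int.natCast_nonneg K]) h0
        have hu0 : (u.sum.map c).sum = 0 := by
          rw [hsum]
          rw [Multiset.map_add, Multiset.sum_add, ht0, zero_add] at h0
          exact h0
        obtain ⟨H', hH', hh'⟩ := ihn u.card (by
          rw [← hn, Multiset.card_add]
          have := Multiset.card_pos.2 ht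
          omega) u rfl (fun h hu => hh h (Multiset.mem_add.2 (Or.inr hu))) hu0
        refine ⟨t.sum ::ₘ H', by simp [hH'], ?_⟩
        intro h hmem
        rw [Multiset.mem_cons] at hmem
        rcases hmem with rfl | hmem
        · constructor
          · have h1 : t.sum.card ≤ t.card * bnd K cs.length := by
              have e0 : t.sum.card = (t.map Multiset.card).sum := Multiset.card_join t
              rw [e0]
              have := Multiset.sum_le_card_nsmul (t.map Multiset.card) (bnd K cs.length) (by
                intro x hx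
                rw [Multiset.mem_map] at hx
                obtain ⟨h, hht, rfl⟩ := hx
                exact (hh h (Multiset.mem_add.2 (Or.inl hht))).1)
              simpa using this
            refine h1.trans ?_
            rw [List.length_cons, bnd]
            exact Nat.mul_le_mul_right _ htc
          · intro d hd
            rw [List.mem_cons] at hd
            rw [hsum]
            rcases hd with rfl | hd
            · exact ht0
            · apply Multiset.sum_eq_zero
              intro x hx
              rw [Multiset.mem_map] at hx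
              obtain ⟨h, hht, rfl⟩ := hx
              exact (hh h (Multiset.mem_add.2 (Or.inl hht))).2 d hd
        · exact hh' h hmem
    obtain ⟨H', h1, h2⟩ := main _ H rfl hh (by rw [hH]; exact hz c List.mem_cons_self)
    exact ⟨H', h1.trans hH, h2⟩

abbrev LSys : Type := List (List (ℕ ⊕ ℕ) × List (ℕ ⊕ ℕ))

def lev (z : ℕ → ℕ) (t : List (ℕ ⊕ ℕ)) : ℕ := (t.map (Sum.elim id z)).sum

def LSolv (s : LSys) : Prop := ∃ z : ℕ → ℕ, ∀ e ∈ s, lev z e.1 = lev z e.2

def tsz (t : List (ℕ ⊕ ℕ)) : ℕ := (t.map (fun x => Sum.elim id id x + 1)).sum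

def ssz (s : LSys) : ℕ := (s.map (fun e => tsz e.1 + tsz e.2)).sum

/-- coefficient function of a formal sum, `none` standing for the constant part -/
def cf : ℕ ⊕ ℕ → Option ℕ → ℕ
  | Sum.inl n, none => n
  | Sum.inl _, some _ => 0
  | Sum.inr _, none => 0
  | Sum.inr j, some i => if i = j then 1 else 0

def coef (t : List (ℕ ⊕ ℕ)) (o : Option ℕ) : ℕ := (t.map (fun x => cf x o)).sum

theorem coef_le (t : List (ℕ ⊕ ℕ)) (o : Option ℕ) : coef t o ≤ tsz t := by
  unfold coef tsz
  apply List.sum_le_sum
  intro x _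
  rcases o with _ | i <;> rcases x with x | x <;> simp only [cf, Sum.elim_inl, Sum.elim_inr, id]
  · omega
  · omega
  · omega
  · split_ifs <;> omega

theorem cf_sum (x : ℕ ⊕ ℕ) (h : Multiset (Option ℕ)) :
    (h.map (cf x)).sum = Sum.elim (fun n => n * h.count none) (fun i => h.count (some i)) x := by
  induction h using Multiset.induction_on with
  | empty => rcases x with x | x <;> simp
  | cons a h ih =>
    rw [Multiset.map_cons, Multiset.sum_cons, ih]
    rcases a with _ | i <;> rcases x with x | x
    · simp [cf]; ring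
    · simp [cf]
    · simp [cf]
    · simp only [cf, Sum.elim_inr, Multiset.count_cons, Option.some.injEq]
      by_cases hx : x = i
      · subst hx; simp [add_comm]
      · have : ¬ (i = x) := fun h => hx h.symm
        simp [hx, this]

theorem lev_eq (t : List (ℕ ⊕ ℕ)) (h : Multiset (Option ℕ)) (h1 : h.count none = 1) :
    (h.map (coef t)).sum = lev (fun i => h.count (some i)) t := by
  induction t with
  | nil =>
    have : coef [] = fun _ => 0 := rfl
    simp [this, lev]
  | cons x t ih =>
    have : coef (x :: t) = fun o => cf x o + coef t o := rfl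
    rw [this, Multiset.sum_map_add, ih, cf_sum, h1]
    simp only [lev, List.map_cons, List.sum_cons, mul_one]
    rfl

theorem lev_congr (t : List (ℕ ⊕ ℕ)) (z z' : ℕ → ℕ) (K : ℕ) (hK : tsz t ≤ K)
    (h : ∀ i < K, z i = z' i) : lev z t = lev z' t := by
  induction t with
  | nil => rfl
  | cons x t ih =>
    simp only [tsz, List.map_cons, List.sum_cons] at hK
    simp only [lev, List.map_cons, List.sum_cons] at ih ⊢
    rw [ih (by unfold tsz; omega)]
    rcases x with x | x
    · rfl
    · simp only [Sum.elim_inr, id] at hK ⊢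
      rw [h x (by omega)]

theorem tsz_le (s : LSys) (e : List (ℕ ⊕ ℕ) × List (ℕ ⊕ ℕ)) (he : e ∈ s) :
    tsz e.1 + tsz e.2 ≤ ssz s :=
  List.single_le_sum (by simp) _ (List.mem_map.2 ⟨e, he, rfl⟩)

theorem small_sol (s : LSys) (h : LSolv s) :
    ∃ z : ℕ → ℕ, (∀ i, z i ≤ bnd (ssz s) s.length) ∧ ∀ e ∈ s, lev z e.1 = lev z e.2 := by
  classical
  obtain ⟨z, hz⟩ := h
  let K := ssz s
  let Z : Multiset (Option ℕ) :=
    none ::ₘ ∑ i ∈ Finset.range K, Multiset.replicate (z i) (some i)
  have hZ0 : Z.count none = 1 := by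
    simp [Z, Multiset.count_sum', Multiset.count_replicate]
  have hZ1 : ∀ i < K, Z.count (some i) = z i := by
    intro i hi
    simp [Z, Multiset.count_sum', Multiset.count_replicate, hi]
  let cs : List (Option ℕ → ℤ) := s.map (fun e o => (coef e.1 o : ℤ) - coef e.2 o)
  have hcs : ∀ (h : Multiset (Option ℕ)) (e : List (ℕ ⊕ ℕ) × List (ℕ ⊕ ℕ)),
      (h.map (fun o => (coef e.1 o : ℤ) - coef e.2 o)).sum =
        ((h.map (coef e.1)).sum : ℕ) - ((h.map (coef e.2)).sum : ℕ) := by
    intro h e
    induction h using Multiset.induction_on with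
    | empty => simp
    | cons a h ih => simp only [Multiset.map_cons, Multiset.sum_cons, ih]; push_cast; ring
  obtain ⟨H, hH, hh⟩ := decomp K cs (by
    intro c hc v
    rw [List.mem_map] at hc
    obtain ⟨e, he, rfl⟩ := hc
    have h1 := coef_le e.1 v
    have h2 := coef_le e.2 v
    have h3 := tsz_le s e he
    rw [abs_le]
    beta_reduce
    constructor <;> omega) Z (by
    intro c hc
    rw [List.mem_map] at hc
    obtain ⟨e, he, rfl⟩ := hc
    have h3 := tsz_le s e he
    rw [hcs, lev_eq _ _ hZ0, lev_eq _ _ hZ0, lev_congr e.1 _ z K (by omega) hZ1,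
      lev_congr e.2 _ z K (by omega) hZ1, hz e he, sub_self])
  have hmem : none ∈ H.sum := by rw [hH]; exact Multiset.mem_cons_self _ _
  obtain ⟨h, hhH, hn⟩ : ∃ h ∈ H, none ∈ h := by
    have := (Multiset.mem_join (S := H) (a := none)).1 hmem
    exact this
  have hle : h ≤ Z := by
    rw [← hH]; exact Multiset.single_le_sum (by simp) _ hhH
  have h1 : h.count none = 1 := by
    have := Multiset.count_le_of_le none hle
    have := Multiset.count_pos.2 hn
    omega
  refine ⟨fun i => h.count (some i), fun i => ?_, fun e he => ?_⟩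
  · have := (hh h hhH).1
    rw [List.length_map] at this
    exact (Multiset.count_le_card _ _).trans this
  · have := (hh h hhH).2 _ (List.mem_map.2 ⟨e, he, rfl⟩)
    rw [hcs, lev_eq _ _ h1, lev_eq _ _ h1] at this
    have h2 := sub_eq_zero.1 this
    exact_mod_cast h2

def dig (b t i : ℕ) : ℕ := t / b ^ i % b

theorem exists_dig (b : ℕ) (hb : 0 < b) : ∀ (K : ℕ) (z : ℕ → ℕ), (∀ i, z i < b) →
    ∃ t < b ^ K, ∀ i < K, dig b t i = z i := by
  intro K
  induction K with
  | zero => intro z _; exact ⟨0, by simp, by simp⟩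
  | succ K ih =>
    intro z hz
    obtain ⟨t, ht, hd⟩ := ih (fun i => z (i + 1)) (fun i => hz _)
    refine ⟨z 0 + b * t, ?_, ?_⟩
    · have := hz 0
      rw [pow_succ']
      nlinarith
    · intro i hi
      rcases i with _ | i
      · simp [dig, Nat.mod_eq_of_lt (hz 0)]
      · have h1 := hd i (by omega)
        simp only [dig] at h1 ⊢
        rw [pow_succ', ← Nat.div_div_eq_div_mul, Nat.add_mul_div_left _ _ hb,
          Nat.div_eq_of_lt (hz 0), zero_add, h1]

theorem lsolv_iff (s : LSys) : LSolv s ↔ ∃ t < (bnd (ssz s) s.length + 1) ^ ssz s,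
    ∀ e ∈ s, lev (dig (bnd (ssz s) s.length + 1) t) e.1 =
      lev (dig (bnd (ssz s) s.length + 1) t) e.2 := by
  constructor
  · intro h
    obtain ⟨z, hz, hs⟩ := small_sol s h
    obtain ⟨t, ht, hd⟩ := exists_dig (bnd (ssz s) s.length + 1) (by omega) (ssz s) z
      (fun i => Nat.lt_succ_of_le (hz i))
    refine ⟨t, ht, fun e he => ?_⟩
    have h3 := tsz_le s e he
    rw [lev_congr e.1 _ z (ssz s) (by omega) hd, lev_congr e.2 _ z (ssz s) (by omega) hd, hs e he]
  · rintro ⟨t, -, h⟩
    exact ⟨_, h⟩

theorem primrec_pow : Primrec₂ (fun a b : ℕ => a ^ b) :=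
  Primrec₂.unpaired'.1 Nat.Primrec.pow

theorem primrec_sum : Primrec (fun l : List ℕ => l.sum) := by
  have h : Primrec (fun l : List ℕ => l.foldr (fun a b => a + b) 0) :=
    Primrec.list_foldr Primrec.id (Primrec.const 0)
      (Primrec.nat_add.comp (Primrec.fst.comp Primrec.snd) (Primrec.snd.comp Primrec.snd)).to₂
  exact h.of_eq fun l => by rw [List.sum_eq_foldr]

theorem primrec_tsz : Primrec tsz := by
  unfold tsz
  refine primrec_sum.comp (Primrec.list_map Primrec.id ?_)
  have h : Primrec (fun x : ℕ ⊕ ℕ => (Sum.elim id id x : ℕ)) :=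
    (Primrec.sumCasesOn Primrec.id Primrec.snd.to₂ Primrec.snd.to₂).of_eq fun x => by
      rcases x with x | x <;> rfl
  exact (Primrec.succ.comp (h.comp Primrec.snd)).to₂

theorem primrec_ssz : Primrec ssz := by
  unfold ssz
  refine primrec_sum.comp (Primrec.list_map Primrec.id ?_)
  exact (Primrec.nat_add.comp (primrec_tsz.comp (Primrec.fst.comp Primrec.snd))
    (primrec_tsz.comp (Primrec.snd.comp Primrec.snd))).to₂

theorem primrec_bnd : Primrec₂ bnd := by
  have h : Primrec (fun p : ℕ × ℕ => (fun b => (2 * (p.1 * b) + 1) * b)^[p.2] 1) :=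
    Primrec.nat_iterate (h := fun p b => (2 * (p.1 * b) + 1) * b) Primrec.snd (Primrec.const 1)
      (Primrec.nat_mul.comp (Primrec.succ.comp (Primrec.nat_mul.comp (Primrec.const 2)
        (Primrec.nat_mul.comp (Primrec.fst.comp Primrec.fst) Primrec.snd))) Primrec.snd).to₂
  refine h.of_eq fun p => ?_
  obtain ⟨K, j⟩ := p
  simp only
  induction j with
  | zero => rfl
  | succ j ih => rw [Function.iterate_succ_apply', ih]; rfl

theorem primrec_lev : Primrec₂ (fun (p : ℕ × ℕ) (t : List (ℕ ⊕ ℕ)) => lev (dig p.1 p.2) t) := by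
  unfold lev
  refine primrec_sum.comp (Primrec.list_map Primrec.snd ?_)
  have hd : Primrec (fun q : (((ℕ × ℕ) × List (ℕ ⊕ ℕ)) × (ℕ ⊕ ℕ)) × ℕ =>
      dig q.1.1.1.1 q.1.1.1.2 q.2) := by
    unfold dig
    have hb : Primrec (fun q : (((ℕ × ℕ) × List (ℕ ⊕ ℕ)) × (ℕ ⊕ ℕ)) × ℕ => q.1.1.1.1) :=
      Primrec.fst.comp (Primrec.fst.comp (Primrec.fst.comp Primrec.fst))
    have ht : Primrec (fun q : (((ℕ × ℕ) × List (ℕ ⊕ ℕ)) × (ℕ ⊕ ℕ)) × ℕ => q.1.1.1.2) :=
      Primrec.snd.comp (Primrec.fst.comp (Primrec.fst.comp Primrec.fst))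
    exact Primrec.nat_mod.comp (Primrec.nat_div.comp ht (primrec_pow.comp hb Primrec.snd)) hb
  have h : Primrec (fun q : ((ℕ × ℕ) × List (ℕ ⊕ ℕ)) × (ℕ ⊕ ℕ) =>
      (Sum.elim id (dig q.1.1.1 q.1.1.2) q.2 : ℕ)) :=
    (Primrec.sumCasesOn Primrec.snd Primrec.snd.to₂ hd.to₂).of_eq fun x => by
      obtain ⟨a, x⟩ := x
      rcases x with x | x <;> rfl
  exact h.to₂

theorem primrec_lsolv : PrimrecPred LSolv := by
  have hb : Primrec (fun s : LSys => bnd (ssz s) s.length + 1) :=
    Primrec.succ.comp (primrec_bnd.comp primrec_ssz Primrec.list_length)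
  have h1 : PrimrecRel (fun (e : List (ℕ ⊕ ℕ) × List (ℕ ⊕ ℕ)) (p : ℕ × ℕ) =>
      lev (dig p.1 p.2) e.1 = lev (dig p.1 p.2) e.2) :=
    Primrec.eq.comp (primrec_lev.comp Primrec.snd (Primrec.fst.comp Primrec.fst))
      (primrec_lev.comp Primrec.snd (Primrec.snd.comp Primrec.fst))
  have h2 := h1.forall_mem_list
  have h3 : PrimrecRel (fun (t : ℕ) (s : LSys) => ∀ e ∈ s,
      lev (dig (bnd (ssz s) s.length + 1) t) e.1 = lev (dig (bnd (ssz s) s.length + 1) t) e.2) :=
    h2.comp Primrec.snd (Primrec.pair (hb.comp Primrec.snd) Primrec.fst)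
  have h4 := h3.exists_mem_list.comp (Primrec.list_range.comp (primrec_pow.comp hb primrec_ssz))
    Primrec.id
  refine h4.of_eq fun s => ?_
  rw [lsolv_iff]
  simp

end Pool.Agent.H331Z.Trace
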