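import Mathlib
import Pool.Agent.H331Z.Trace.Defs
import Pool.Agent.H331Z.Trace.Free
import Pool.Agent.H331Z.Trace.Lin

set_option autoImplicit false

namespace Pool.Agent.H331Z.Trace

variable {k : ℕ}

theorem parikh_mul (I : Fin k → Fin k → Prop) (x y : TraceMonoid I) :
    parikh I (x * y) = parikh I x + parikh I y := by
  simp [parikh]

theorem parikh_one (I : Fin k → Fin k → Prop) : parikh I 1 = 0 := by
  simp [parikh]

theorem parikh_of (I : Fin k → Fin k → Prop) (a : Fin k) :
    parikh I (PresentedMonoid.of (commRel I) a) = Pi.single a 1 := rfl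

theorem parikh_prod (I : Fin k → Fin k → Prop) (l : List (TraceMonoid I)) (c : Fin k) :
    parikh I l.prod c = (l.map (fun x => parikh I x c)).sum := by
  induction l with
  | nil => simp [parikh_one]
  | cons x l ih => simp [parikh_mul, ih]

theorem parikh_word (I : Fin k → Fin k → Prop) (l : List (Fin k)) (c : Fin k) :
    parikh I (l.map (PresentedMonoid.of (commRel I))).prod c = l.count c := by
  induction l with
  | nil => simp [parikh_one]
  | cons x l ih =>
    rw [List.map_cons, List.prod_cons, parikh_mul, Pi.add_apply, ih, parikh_of, List.count_cons,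
      Pi.single_apply]
    by_cases h : c = x
    · subst h; simp [add_comm]
    · have : ¬ x = c := fun h' => h h'.symm
      simp [h, this]

theorem exists_word (I : Fin k → Fin k → Prop) (x : TraceMonoid I) :
    ∃ l : List (Fin k), x = (l.map (PresentedMonoid.of (commRel I))).prod := by
  obtain ⟨a, rfl⟩ := PresentedMonoid.surjective_mk x
  induction a with
  | one => exact ⟨[], rfl⟩
  | of x => exact ⟨[x], by simp [PresentedMonoid.of]⟩
  | mul x y hx hy =>
    obtain ⟨l1, h1⟩ := hx
    obtain ⟨l2, h2⟩ := hy
    exact ⟨l1 ++ l2, by rw [map_mul, h1, h2]; simp⟩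

theorem evalSum_apply (z : ℕ → Fin k → ℕ) (t : AbSum k) (c : Fin k) :
    evalSum z t c = (t.map (fun x => Sum.elim id z x c)).sum := by
  unfold evalSum
  induction t with
  | nil => rfl
  | cons x t ih => simp only [List.map_cons, List.sum_cons, Pi.add_apply, ih]

section Comm

variable {I : Fin k → Fin k → Prop}

theorem parikh_inj (hI : ∀ a b, a ≠ b → I a b) : Function.Injective (parikh I) := by
  intro x y h
  obtain ⟨l1, rfl⟩ := exists_word I x
  obtain ⟨l2, rfl⟩ := exists_word I y
  have hp : l1.Perm l2 := by
    rw [List.perm_iff_count]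
    intro c
    rw [← parikh_word I l1 c, ← parikh_word I l2 c, h]
  refine (hp.map _).prod_eq' ?_
  rw [List.pairwise_map]
  apply List.pairwise_of_forall
  intro a b
  by_cases hab : a = b
  · rw [hab]
  · exact PresentedMonoid.mk_eq_mk_of_rel (rels := commRel I) ⟨a, b, hI a b hab, rfl, rfl⟩

theorem parikh_surj (I : Fin k → Fin k → Prop) : Function.Surjective (parikh I) := by
  intro z
  refine ⟨(((List.finRange k).flatMap (fun c => List.replicate (z c) c)).map
    (PresentedMonoid.of (commRel I))).prod, ?_⟩
  funext c
  rw [parikh_word, List.count_flatMap, ← Fin.sum_univ_def]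
  simp [List.count_replicate]

def wTo (c : Fin k) : Fin k ⊕ ℕ → ℕ ⊕ ℕ :=
  fun x => Sum.casesOn x (fun a => Sum.inl (if c = a then 1 else 0)) (fun i => Sum.inr i)

def sTo (c : Fin k) : (Fin k → ℕ) ⊕ ℕ → ℕ ⊕ ℕ :=
  fun x => Sum.casesOn x (fun f => Sum.inl (f c)) (fun i => Sum.inr i)

def lsys (c : Fin k) (x : Input k) : LSys :=
  x.1.map (fun e => (e.1.map (wTo c), e.2.map (wTo c))) ++
    x.2.map (fun e => (e.1.map (sTo c), e.2.map (sTo c)))

theorem parikh_evalWord (m : ℕ → TraceMonoid I) (u : Word k) (c : Fin k) :
    parikh I (evalWord I m u) c = lev (fun i => parikh I (m i) c) (u.map (wTo c)) := by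
  unfold evalWord lev
  rw [parikh_prod, List.map_map, List.map_map]
  congr 1
  apply List.map_congr_left
  intro x _
  rcases x with a | i
  · simp [wTo, parikh_of, Pi.single_apply]
  · rfl

theorem evalSum_lev (z : ℕ → Fin k → ℕ) (t : AbSum k) (c : Fin k) :
    evalSum z t c = lev (fun i => z i c) (t.map (sTo c)) := by
  rw [evalSum_apply]
  unfold lev
  rw [List.map_map]
  congr 1
  apply List.map_congr_left
  intro x _
  rcases x with a | i <;> rfl

theorem solvable_iff_lsys (hI : ∀ a b, a ≠ b → I a b) (x : Input k) :
    Solvable I x ↔ ∀ c, LSolv (lsys c x) := by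
  constructor
  · rintro ⟨m, h1, h2⟩ c
    refine ⟨fun i => parikh I (m i) c, fun e he => ?_⟩
    simp only [lsys, List.mem_append, List.mem_map] at he
    rcases he with ⟨e, he, rfl⟩ | ⟨e, he, rfl⟩
    · simp only
      rw [← parikh_evalWord, ← parikh_evalWord, h1 e he]
    · simp only
      rw [← evalSum_lev (fun i => parikh I (m i)), ← evalSum_lev (fun i => parikh I (m i)),
        h2 e he]
  · intro h
    choose z hz using h
    choose m hm using fun i : ℕ => parikh_surj I (fun c => z c i)
    have hm' : ∀ c, (fun i => parikh I (m i) c) = z c := by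
      intro c; funext i; rw [hm]
    refine ⟨m, fun e he => ?_, fun e he => ?_⟩
    · apply parikh_inj hI
      funext c
      rw [parikh_evalWord, parikh_evalWord, hm']
      exact hz c (e.1.map (wTo c), e.2.map (wTo c))
        (List.mem_append_left _ (List.mem_map.2 ⟨e, he, rfl⟩))
    · funext c
      rw [evalSum_lev, evalSum_lev, hm']
      exact hz c (e.1.map (sTo c), e.2.map (sTo c))
        (List.mem_append_right _ (List.mem_map.2 ⟨e, he, rfl⟩))

theorem primrec_wTo (c : Fin k) : Primrec (wTo c) := by
  have h : Primrec (fun a : Fin k => (Sum.inl (if c = a then 1 else 0) : ℕ ⊕ ℕ)) :=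
    Primrec.dom_finite _
  exact Primrec.sumCasesOn Primrec.id (h.comp Primrec.snd).to₂
    (Primrec.sumInr.comp Primrec.snd).to₂

theorem primrec_sTo (c : Fin k) : Primrec (sTo c) := by
  have h : Primrec (fun f : Fin k → ℕ => f c) :=
    Primrec.fin_app.comp Primrec.id (Primrec.const c)
  exact Primrec.sumCasesOn Primrec.id (Primrec.sumInl.comp (h.comp Primrec.snd)).to₂
    (Primrec.sumInr.comp Primrec.snd).to₂

theorem primrec_pairmap {α β : Type} [Primcodable α] [Primcodable β] {f : α → β}
    (hf : Primrec f) :
    Primrec (fun l : List (List α × List α) => l.map (fun e => (e.1.map f, e.2.map f))) := by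
  have h : Primrec (fun l : List α => l.map f) :=
    Primrec.list_map Primrec.id (hf.comp Primrec.snd).to₂
  exact Primrec.list_map Primrec.id (Primrec.pair (h.comp (Primrec.fst.comp Primrec.snd))
    (h.comp (Primrec.snd.comp Primrec.snd))).to₂

theorem primrec_lsys (c : Fin k) : Primrec (lsys c) :=
  Primrec.list_append.comp ((primrec_pairmap (primrec_wTo c)).comp Primrec.fst)
    ((primrec_pairmap (primrec_sTo c)).comp Primrec.snd)

theorem primrecPred_forall_list {α ι : Type} [Primcodable α] (P : ι → α → Prop)
    (h : ∀ c, PrimrecPred (P c)) (l : List ι) : PrimrecPred (fun x => ∀ c ∈ l, P c x) := by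
  induction l with
  | nil =>
    have : PrimrecPred (fun _ : α => (0 : ℕ) = 0) :=
      Primrec.eq.comp (Primrec.const 0) (Primrec.const 0)
    exact this.of_eq (by simp)
  | cons c l ih => exact ((h c).and ih).of_eq (by simp)

theorem computable_of_comm (hI : ∀ a b, a ≠ b → I a b) : ComputablePred (Solvable I) := by
  have h := primrecPred_forall_list (fun (c : Fin k) (x : Input k) => LSolv (lsys c x))
    (fun c => primrec_lsolv.comp (primrec_lsys c)) (List.finRange k)
  refine h.computablePred.of_eq fun x => ?_
  rw [solvable_iff_lsys hI]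
  simp

end Comm

section Undec

variable {I : Fin k → Fin k → Prop} {a b : Fin k}

def ltr (a b : Fin k) (c : Bool) : Fin k := cond c b a

def trSys (a b : Fin k) (s : FSys ℕ) : Input k :=
  (s.w.map (fun e => (e.1.map (Sum.map (ltr a b) id), e.2.map (Sum.map (ltr a b) id))),
   s.a.map (fun e => (e.1.map Sum.inr, e.2.map Sum.inr)))

def retrL (a b : Fin k) (c : Fin k) : FreeMonoid Bool :=
  if c = a then FreeMonoid.of false else if c = b then FreeMonoid.of true else 1

/-- the retraction killing all letters other than `a` and `b` -/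
def retr (hab : ¬ I a b) (hba : ¬ I b a) : TraceMonoid I →* FreeMonoid Bool :=
  PresentedMonoid.lift (retrL a b) (by
    rintro u v ⟨c, d, hcd, rfl, rfl⟩
    simp only [map_mul, FreeMonoid.lift_eval_of, retrL]
    by_cases h1 : c = a <;> by_cases h2 : c = b <;> by_cases h3 : d = a <;> by_cases h4 : d = b <;>
      simp_all)

theorem retr_of (hab : ¬ I a b) (hba : ¬ I b a) (c : Fin k) :
    retr hab hba (PresentedMonoid.of (commRel I) c) = retrL a b c := rfl

theorem retr_ltr (hne : a ≠ b) (c : Bool) : retrL a b (ltr a b c) = FreeMonoid.of c := by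
  cases c
  · simp [retrL, ltr]
  · simp [retrL, ltr, hne.symm]

theorem ltr_inj (hne : a ≠ b) : Function.Injective (ltr a b) := by
  intro c d h
  cases c <;> cases d <;> simp_all [ltr]

theorem count_retr (hne : a ≠ b) (hab : ¬ I a b) (hba : ¬ I b a) (x : TraceMonoid I) (c : Bool) :
    (retr hab hba x).toList.count c = parikh I x (ltr a b c) := by
  obtain ⟨l, rfl⟩ := exists_word I x
  rw [parikh_word]
  induction l with
  | nil => simp
  | cons d l ih =>
    rw [List.map_cons, List.prod_cons, map_mul, FreeMonoid.toList_mul, List.count_append, ih,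
      retr_of, List.count_cons, add_comm]
    congr 1
    unfold retrL ltr
    cases c <;> by_cases h1 : d = a <;> by_cases h2 : d = b <;> simp_all

def emb (I : Fin k → Fin k → Prop) (a b : Fin k) (l : List Bool) : TraceMonoid I :=
  ((l.map (ltr a b)).map (PresentedMonoid.of (commRel I))).prod

theorem emb_append (l l' : List Bool) : emb I a b (l ++ l') = emb I a b l * emb I a b l' := by
  simp [emb]

theorem evalWord_emb (m : ℕ → List Bool) (u : List (Bool ⊕ ℕ)) :
    evalWord I (fun i => emb I a b (m i)) (u.map (Sum.map (ltr a b) id)) =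
      emb I a b (fev m u) := by
  induction u with
  | nil => rfl
  | cons x u ih =>
    unfold evalWord fev at ih ⊢
    rw [List.map_cons, List.map_cons, List.prod_cons, ih, List.flatMap_cons, emb_append]
    congr 1
    rcases x with x | x
    · simp [emb]
    · rfl

theorem retr_evalWord (hne : a ≠ b) (hab : ¬ I a b) (hba : ¬ I b a) (m : ℕ → TraceMonoid I)
    (u : List (Bool ⊕ ℕ)) :
    (retr hab hba (evalWord I m (u.map (Sum.map (ltr a b) id)))).toList =
      fev (fun i => (retr hab hba (m i)).toList) u := by
  induction u with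
  | nil => simp [evalWord, fev]
  | cons x u ih =>
    unfold evalWord fev at ih ⊢
    rw [List.map_cons, List.map_cons, List.prod_cons, map_mul, FreeMonoid.toList_mul, ih,
      List.flatMap_cons]
    congr 1
    rcases x with x | x
    · simp [retr_of, retr_ltr hne]
    · rfl

theorem evalSum_inr (z : ℕ → Fin k → ℕ) (t : List ℕ) (c : Fin k) :
    evalSum z (t.map Sum.inr) c = (t.map (fun i => z i c)).sum := by
  rw [evalSum_apply, List.map_map]
  rfl

theorem solvable_tr (hne : a ≠ b) (hab : ¬ I a b) (hba : ¬ I b a) (s : FSys ℕ) :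
    Solvable I (trSys a b s) ↔ ∃ m : ℕ → List Bool, s.Holds m := by
  constructor
  · rintro ⟨m, h1, h2⟩
    refine ⟨fun i => (retr hab hba (m i)).toList, fun e he => ?_, fun e he c => ?_⟩
    · have := h1 _ (List.mem_map.2 ⟨e, he, rfl⟩)
      rw [← retr_evalWord hne hab hba, ← retr_evalWord hne hab hba]
      exact congrArg (fun y => (retr hab hba y).toList) this
    · have := congrFun (h2 _ (List.mem_map.2 ⟨e, he, rfl⟩)) (ltr a b c)
      simp only [evalSum_inr] at this
      simp only [count_retr hne hab hba]
      exact this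
  · rintro ⟨m, h1, h2⟩
    refine ⟨fun i => emb I a b (m i), fun e he => ?_, fun e he => ?_⟩
    · obtain ⟨e, he', rfl⟩ := List.mem_map.1 he
      simp only [evalWord_emb, h1 e he']
    · obtain ⟨e, he', rfl⟩ := List.mem_map.1 he
      funext c
      simp only [evalSum_inr, emb, parikh_word]
      by_cases hc : ∃ d, ltr a b d = c
      · obtain ⟨d, rfl⟩ := hc
        simp only [List.count_map_of_injective _ _ (ltr_inj hne)]
        exact h2 e he' d
      · have : ∀ l : List Bool, (l.map (ltr a b)).count c = 0 := by
          intro l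
          rw [List.count_eq_zero]
          intro h
          obtain ⟨d, -, hd⟩ := List.mem_map.1 h
          exact hc ⟨d, hd⟩
        simp [this]

theorem halt_not_computable : ¬ ComputablePred (fun n : ℕ =>
    (Nat.Partrec.Code.eval (Denumerable.ofNat Nat.Partrec.Code n) 0).Dom) := by
  intro hc
  apply ComputablePred.halting_problem 0
  obtain ⟨f, hf, hfe⟩ := ComputablePred.computable_iff.1 hc
  refine ComputablePred.computable_iff.2 ⟨fun c => f (Encodable.encode c),
    hf.comp Computable.encode, ?_⟩
  funext c
  have := congrFun hfe (Encodable.encode c)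
  simp only [Denumerable.ofNat_encode] at this
  exact this

theorem halt_re : REPred (fun n : ℕ =>
    (Nat.Partrec.Code.eval (Denumerable.ofNat Nat.Partrec.Code n) 0).Dom) := by
  have h : Partrec (fun n : ℕ => Nat.Partrec.Code.eval (Denumerable.ofNat Nat.Partrec.Code n) 0) :=
    Nat.Partrec.Code.eval_part.comp (Computable.ofNat _) (Computable.const 0)
  exact h.dom_re

theorem not_computable (hne : a ≠ b) (hab : ¬ I a b) (hba : ¬ I b a) :
    ¬ ComputablePred (Solvable I) := by
  intro hc
  obtain ⟨s, i0, hs⟩ := exists_fsys _ halt_re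
  let red : ℕ → Input k := fun n =>
    (([Sum.inr i0], (List.range n).map (fun _ => Sum.inl a)) :: (trSys a b s).1, (trSys a b s).2)
  have hred : Primrec red :=
    Primrec.pair (Primrec.list_cons.comp (Primrec.pair (Primrec.const _)
      (Primrec.list_map Primrec.list_range (Primrec.const _).to₂)) (Primrec.const _))
      (Primrec.const _)
  apply halt_not_computable
  refine ComputablePred.computable_of_manyOneReducible ⟨red, hred.to_comp, fun n => ?_⟩ hc
  have e : red n = trSys a b ⟨([Sum.inr i0], List.replicate n (Sum.inl false)) :: s.w, s.a⟩ := by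
    simp [red, trSys, ltr]
  rw [e, solvable_tr hne hab hba]
  refine (hs n).trans (exists_congr fun m => ?_)
  have : fev m (List.replicate n (Sum.inl false)) = A n := by
    simp [fev, A, List.flatMap_replicate]
  simp only [FSys.Holds, List.mem_cons, forall_eq_or_imp, this, and_assoc]
  simp [fev]

end Undec

theorem classification (I : Fin k → Fin k → Prop) (hsymm : ∀ a b, I a b → I b a) :
    ComputablePred (Solvable I) ↔ ∀ a b, a ≠ b → I a b := by
  refine ⟨fun h a b hne => ?_, computable_of_comm⟩
  by_contra hab
  exact not_computable hne hab (fun h' => hab (hsymm _ _ h')) h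

end Pool.Agent.H331Z.Trace
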